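import Pool.Agent.H58.T1.S1

/-!
# T1, module GRA: the size of `L(m)`
-/

set_option autoImplicit false
set_option linter.unusedSectionVars false

namespace Pool.T1

open Polynomial Pool.HYP Pool.TOW Pool.AVS IsDedekindDomain

namespace GRA

variable {R : Type} [CommRing R] [IsDomain R] {K : Type} [Field K] [Algebra R K]
  {O : ValuationSubring K} {π : K}

theorem zpow_mem (h : GR R O π) {n : ℤ} (hn : 0 ≤ n) : π ^ n ∈ O := by
  lift n to ℕ using hn
  rw [zpow_natCast]
  exact pow_mem h.pi_mem n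

/-- The maximal ideal of `O` is generated by `π`. -/
theorem div_mem (h : GR R O π) {z : K} (hz' : z⁻¹ ∉ O) : z / π ∈ O := by
  have h0 : z ≠ 0 := by
    rintro rfl
    rw [inv_zero] at hz'
    exact hz' O.zero_mem
  obtain ⟨n, h1, h2⟩ := h.val z h0
  have hp := h.pi_ne
  have hn : 1 ≤ n := by
    by_contra hn
    push Not at hn
    apply hz'
    have h3 : z⁻¹ = (z / π ^ n)⁻¹ * π ^ (-n) := by
      rw [inv_div, zpow_neg]
      have : π ^ n ≠ 0 := zpow_ne_zero _ hp
      field_simp
    rw [h3]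
    exact O.mul_mem _ _ h2 (zpow_mem h (by omega))
  have h3 : z / π = (z / π ^ n) * π ^ (n - 1) := by
    rw [zpow_sub_one₀ hp]
    have : π ^ n ≠ 0 := zpow_ne_zero _ hp
    field_simp
  rw [h3]
  exact O.mul_mem _ _ h1 (zpow_mem h (by omega))

theorem res_zero (h : GR R O π) {z : K} (hz : z ∈ O) (h0 : IsLocalRing.residue O ⟨z, hz⟩ = 0) :
    z / π ∈ O := by
  by_cases hz0 : z = 0
  · rw [hz0, zero_div]
    exact O.zero_mem
  refine div_mem h fun hi => ?_
  rw [IsLocalRing.residue_eq_zero_iff, IsLocalRing.mem_maximalIdeal, mem_nonunits_iff] at h0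
  refine h0 (IsUnit.of_mul_eq_one ⟨z⁻¹, hi⟩ ?_)
  ext
  exact mul_inv_cancel₀ hz0

theorem Lm_mono (h : GR R O π) {m n : ℤ} (hmn : m ≤ n) {a : R} (ha : a ∈ Lm R O π m) :
    a ∈ Lm R O π n := by
  have h1 : algebraMap R K a * π ^ n = algebraMap R K a * π ^ m * π ^ (n - m) := by
    rw [mul_assoc, ← zpow_add₀ h.pi_ne]
    congr 2
    omega
  change algebraMap R K a * π ^ n ∈ O
  rw [h1]
  exact O.mul_mem _ _ ha (zpow_mem h (by omega))

theorem zero_mem (m : ℤ) : (0 : R) ∈ Lm R O π m := by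
  change algebraMap R K 0 * π ^ m ∈ O
  rw [map_zero, zero_mul]
  exact O.zero_mem

theorem sub_mem {m : ℤ} {a b : R} (ha : a ∈ Lm R O π m) (hb : b ∈ Lm R O π m) :
    a - b ∈ Lm R O π m := by
  change algebraMap R K (a - b) * π ^ m ∈ O
  rw [map_sub, sub_mul]
  exact O.toSubring.sub_mem ha hb

theorem Lm_neg (h : GR R O π) {m : ℤ} (hm : m < 0) : Lm R O π m = {0} := by
  ext a
  refine ⟨fun ha => h.small a (Lm_mono h (by omega) ha), ?_⟩
  rintro rfl
  exact zero_mem m

open Classical in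
/-- The leading coefficient. -/
noncomputable def lc (O : ValuationSubring K) (π : K) (m : ℤ) (a : R) :
    IsLocalRing.ResidueField O :=
  if h : algebraMap R K a * π ^ m ∈ O then IsLocalRing.residue O ⟨_, h⟩ else 0

theorem lc_eq {m : ℤ} (h : GR R O π) {a b : R} (ha : a ∈ Lm R O π m) (hb : b ∈ Lm R O π m)
    (hab : lc O π m a = lc O π m b) : a - b ∈ Lm R O π (m - 1) := by
  have ha' : algebraMap R K a * π ^ m ∈ O := ha
  have hb' : algebraMap R K b * π ^ m ∈ O := hb
  have hc' : algebraMap R K (a - b) * π ^ m ∈ O := sub_mem ha hb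
  rw [lc, lc, dif_pos ha', dif_pos hb', ← sub_eq_zero, ← map_sub] at hab
  have h1 : (⟨algebraMap R K a * π ^ m, ha'⟩ - ⟨algebraMap R K b * π ^ m, hb'⟩ : O) =
      ⟨algebraMap R K (a - b) * π ^ m, hc'⟩ := by
    ext
    change algebraMap R K a * π ^ m - algebraMap R K b * π ^ m = algebraMap R K (a - b) * π ^ m
    rw [map_sub, sub_mul]
  rw [h1] at hab
  have h2 := res_zero h hc' hab
  change algebraMap R K (a - b) * π ^ (m - 1) ∈ O
  rw [zpow_sub_one₀ h.pi_ne]
  rwa [div_eq_mul_inv, mul_assoc] at h2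

open Classical in
theorem step (h : GR R O π) (m : ℤ) (hf : (Lm R O π (m - 1)).Finite) :
    (Lm R O π m).Finite ∧ (Lm R O π m).ncard ≤ qq O * (Lm R O π (m - 1)).ncard := by
  have hfin := h.res
  set g : IsLocalRing.ResidueField O → R := fun x =>
    if hx : ∃ a ∈ Lm R O π m, lc O π m a = x then hx.choose else 0 with hg
  set ψ : R → IsLocalRing.ResidueField O × R := fun a => (lc O π m a, a - g (lc O π m a)) with hψ
  set t : Set (IsLocalRing.ResidueField O × R) := Set.univ ×ˢ Lm R O π (m - 1) with ht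
  have htf : t.Finite := Set.Finite.prod Set.finite_univ hf
  have h1 : ∀ a ∈ Lm R O π m, ψ a ∈ t := by
    intro a ha
    refine ⟨Set.mem_univ _, ?_⟩
    have hx : ∃ a' ∈ Lm R O π m, lc O π m a' = lc O π m a := ⟨a, ha, rfl⟩
    have h2 : g (lc O π m a) = hx.choose := by
      rw [hg]; exact dif_pos hx
    change a - g (lc O π m a) ∈ _
    rw [h2]
    exact lc_eq h ha hx.choose_spec.1 hx.choose_spec.2.symm
  have h2 : Set.InjOn ψ (Lm R O π m) := by
    intro a _ b _ hab
    have h3 : lc O π m a = lc O π m b := congrArg Prod.fst hab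
    have h4 : a - g (lc O π m a) = b - g (lc O π m b) := congrArg Prod.snd hab
    rw [h3] at h4
    exact sub_left_injective h4
  refine ⟨Set.Finite.of_injOn h1 h2 htf, ?_⟩
  refine (Set.ncard_le_ncard_of_injOn ψ h1 h2 htf).trans ?_
  rw [ht, Set.ncard_prod, Set.ncard_univ]
  exact le_rfl

theorem fin_nat (h : GR R O π) (m : ℕ) :
    (Lm R O π (m : ℤ)).Finite ∧ (Lm R O π (m : ℤ)).ncard ≤ qq O ^ (m + 1) := by
  induction m with
  | zero =>
    have h1 := Lm_neg h (m := ((0 : ℕ) : ℤ) - 1) (by norm_num)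
    obtain ⟨h2, h3⟩ := step h ((0 : ℕ) : ℤ) (by rw [h1]; exact Set.finite_singleton _)
    rw [h1, Set.ncard_singleton] at h3
    exact ⟨h2, by simpa using h3⟩
  | succ m ih =>
    have h1 : (((m + 1 : ℕ) : ℤ) - 1) = (m : ℤ) := by push_cast; ring
    obtain ⟨h2, h3⟩ := step h ((m + 1 : ℕ) : ℤ) (by rw [h1]; exact ih.1)
    rw [h1] at h3
    refine ⟨h2, h3.trans ?_⟩
    rw [pow_succ' _ (m + 1)]
    exact Nat.mul_le_mul_left _ ih.2

theorem three_le (h : GR R O π) : 3 ≤ qq O := by
  have hfin := h.res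
  obtain ⟨p, hp, hc⟩ := h.char
  have h2 : (2 : IsLocalRing.ResidueField O) ≠ 0 := by
    intro h2
    have hp2 : p ≠ 2 := by
      rintro rfl
      apply h.two
      have := CharP.cast_eq_zero K 2
      exact_mod_cast this
    have hodd : p % 2 = 1 := Nat.odd_iff.mp (hp.odd_of_ne_two hp2)
    have h3 : (p : IsLocalRing.ResidueField O) = 0 := by
      have h4 : (p : O) = 0 := by
        ext
        simp [CharP.cast_eq_zero K p]
      have h5 := congrArg (IsLocalRing.residue O) h4
      simpa using h5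
    have h6 : (p : IsLocalRing.ResidueField O) = 2 * ((p / 2 : ℕ) : IsLocalRing.ResidueField O) + 1 := by
      have h7 : p = 2 * (p / 2) + 1 := by omega
      conv_lhs => rw [h7]
      push_cast
      ring
    rw [h3, h2, zero_mul, zero_add] at h6
    exact zero_ne_one h6
  have h3 : (1 : IsLocalRing.ResidueField O) ≠ -1 := by
    intro h3
    apply h2
    have h4 : (1 : IsLocalRing.ResidueField O) + 1 = 0 := by
      nth_rewrite 1 [h3]
      ring
    rw [← h4]; norm_num
  have h4 : ({0, 1, -1} : Set (IsLocalRing.ResidueField O)).ncard = 3 := by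
    rw [Set.ncard_eq_three]
    exact ⟨0, 1, -1, zero_ne_one, (neg_ne_zero.mpr one_ne_zero).symm, h3, rfl⟩
  have h5 : ({0, 1, -1} : Set (IsLocalRing.ResidueField O)).ncard ≤
      (Set.univ : Set (IsLocalRing.ResidueField O)).ncard :=
    Set.ncard_le_ncard (Set.subset_univ _) Set.finite_univ
  rw [h4, Set.ncard_univ] at h5
  exact h5

end GRA

open GRA in
theorem gra : GRAStmt := by
  intro R _ _ K _ _ _ O π h
  refine ⟨three_le h, ?_, fun m hm => Lm_neg h hm, ?_, ?_⟩
  · intro m
    by_cases hm : m < 0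
    · rw [Lm_neg h hm]
      refine ⟨Set.finite_singleton _, ?_⟩
      rw [Set.ncard_singleton, Int.toNat_of_nonpos (by omega), pow_zero]
    · push Not at hm
      lift m to ℕ using hm
      have h1 : ((m : ℤ) + 1).toNat = m + 1 := by omega
      rw [h1]
      exact fin_nat h m
  · obtain ⟨c, hc⟩ := h.big
    refine ⟨qq O * c, fun m => ?_⟩
    rw [pow_succ', mul_assoc]
    exact Nat.mul_le_mul_left _ (hc m)
  · intro a
    by_cases ha : algebraMap R K a = 0
    · refine ⟨0, ?_⟩
      change algebraMap R K a * _ ∈ O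
      rw [ha, zero_mul]
      exact O.zero_mem
    · obtain ⟨n, h1, h2⟩ := h.val _ ha
      refine ⟨(-n).toNat, ?_⟩
      change algebraMap R K a * _ ∈ O
      have h3 : algebraMap R K a * π ^ (((-n).toNat : ℕ) : ℤ) =
          algebraMap R K a / π ^ n * π ^ (n + (((-n).toNat : ℕ) : ℤ)) := by
        rw [zpow_add₀ h.pi_ne]
        have : π ^ n ≠ 0 := zpow_ne_zero _ h.pi_ne
        field_simp
      rw [h3]
      exact O.mul_mem _ _ h1 (zpow_mem h (by omega))

end Pool.T1
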