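import Pool.Agent.H14.T1.S3
import Pool.Agent.H30.T1.Loc

/-!
# T1, module WAP: weak approximation
-/

set_option autoImplicit false

namespace Pool.T1

open Polynomial Matrix Pool.HYP Pool.TOW Pool.AVS IsDedekindDomain

namespace WAP

variable {R : Type} [CommRing R] [IsDedekindDomain R] {K : Type} [Field K] [Algebra R K]
  [IsFractionRing R K]

theorem pow_dvd (P : HeightOneSpectrum R) {e : R} (he : e ≠ 0) :
    ∃ k : ℕ, ∀ z ∈ P.asIdeal ^ k, algebraMap R K z / algebraMap R K e ∈ RP K P := by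
  have hI : Ideal.span {e} ≠ (0 : Ideal R) := by
    rw [Ideal.zero_eq_bot, Ne, Ideal.span_singleton_eq_bot]
    exact he
  obtain ⟨k, J, hJ, hIJ⟩ := WfDvdMonoid.max_power_factor hI P.irreducible
  have h1 : ∃ m ∈ J, m ∉ P.asIdeal := by
    by_contra hc
    push Not at hc
    exact hJ (Ideal.dvd_iff_le.mpr hc)
  obtain ⟨m, hmJ, hmP⟩ := h1
  refine ⟨k, fun z hz => ⟨m, hmP, ?_⟩⟩
  have h2 : m * z ∈ Ideal.span {e} := by
    rw [hIJ, mul_comm m z]
    exact Ideal.mul_mem_mul hz hmJ
  obtain ⟨b, hb⟩ := Ideal.mem_span_singleton.mp h2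
  refine ⟨b, ?_⟩
  rw [← mul_div_assoc, ← map_mul, hb, map_mul, mul_div_cancel_left₀ _ (alg_ne he)]

theorem app (S : Finset (HeightOneSpectrum R)) (a : K) (ha : a ≠ 0)
    (x : HeightOneSpectrum R → K) : ∃ y : K, ∀ P ∈ S, (y - x P) / a ∈ RP K P := by
  classical
  obtain ⟨d, hd, hdx⟩ := den_all (R := R) (fun P : S => x P)
  choose r hr using hdx
  obtain ⟨a1, a2, ha2, hab⟩ := IsFractionRing.div_surjective (A := R) a
  have ha2' : a2 ≠ 0 := nonZeroDivisors.ne_zero ha2
  have ha1 : a1 ≠ 0 := by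
    rintro rfl
    rw [map_zero, zero_div] at hab
    exact ha hab.symm
  choose k hk using fun P : HeightOneSpectrum R => pow_dvd (K := K) P (mul_ne_zero hd ha1)
  obtain ⟨y, hy⟩ := IsDedekindDomain.exists_forall_sub_mem_ideal (s := S)
    (fun P : HeightOneSpectrum R => P.asIdeal) k (fun P _ => P.prime)
    (fun P _ Q _ h h' => h (HeightOneSpectrum.ext h')) r
  refine ⟨algebraMap R K y / algebraMap R K d, fun P hP => ?_⟩
  have h1 := hk P _ (hy P hP)
  have h2 : (algebraMap R K y / algebraMap R K d - x P) / a =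
      (algebraMap R K (y - r ⟨P, hP⟩) / algebraMap R K (d * a1)) * algebraMap R K a2 := by
    have h3 := hr ⟨P, hP⟩
    have h4 := alg_ne (K := K) hd
    have h5 := alg_ne (K := K) ha1
    have h6 := alg_ne (K := K) ha2'
    rw [← hab, map_sub, map_mul, ← h3]
    field_simp
  rw [h2]
  exact rp_mul h1 (rp_alg a2)

end WAP

open WAP in
theorem wap : WAPStmt := by
  intro R _ _ K _ _ _ S a ha
  refine ⟨app S a ha, ?_⟩
  intro N g hg
  classical
  rcases S.eq_empty_or_nonempty with rfl | hne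
  · exact ⟨1, by rw [det_one]; exact one_ne_zero, by simp⟩
  obtain ⟨P₀, hP₀⟩ := hne
  have hinf : Infinite R := by
    by_contra hR
    rw [not_infinite_iff_finite] at hR
    have hf : IsField R := Finite.isField_of_domain R
    obtain ⟨z, hz, hz0⟩ := Submodule.exists_mem_ne_zero_of_ne_bot P₀.ne_bot
    obtain ⟨b, hb⟩ := hf.mul_inv_cancel hz0
    refine P₀.isPrime.ne_top ((Ideal.eq_top_iff_one _).2 ?_)
    rw [← hb]
    exact Ideal.mul_mem_right _ _ hz
  obtain ⟨d, hd, hdx⟩ := den_all (R := R) (fun q : S × Fin N × Fin N => (g q.1)⁻¹ q.2.1 q.2.2)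
  have hd' := alg_ne (K := K) hd
  set a' : K := a * algebraMap R K d with ha'
  have ha0 : a' ≠ 0 := mul_ne_zero ha hd'
  choose h0 hh0 using fun i j : Fin N => app S a' ha0 (fun P => g P i j)
  set M : Matrix (Fin N) (Fin N) K := -(a'⁻¹ • Matrix.of h0) with hM
  obtain ⟨t, ht⟩ : ∃ t : R, M.charpoly.eval (algebraMap R K t) ≠ 0 := by
    by_contra hc
    push Not at hc
    have h1 : Set.Infinite (Set.range (algebraMap R K)) :=
      Set.infinite_range_of_injective (IsFractionRing.injective R K)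
    refine M.charpoly_monic.ne_zero (eq_zero_of_infinite_isRoot _ (h1.mono ?_))
    rintro _ ⟨t, rfl⟩
    exact hc t
  rw [Matrix.eval_charpoly] at ht
  refine ⟨a' • (Matrix.scalar (Fin N) (algebraMap R K t) - M), ?_, ?_⟩
  · rw [det_smul]
    exact mul_ne_zero (pow_ne_zero _ ha0) ht
  · intro P hP i j
    have h1 : a' • (Matrix.scalar (Fin N) (algebraMap R K t) - M) =
        Matrix.of h0 + (a' * algebraMap R K t) • (1 : Matrix (Fin N) (Fin N) K) := by
      rw [hM]
      ext i j
      simp only [Matrix.smul_apply, Matrix.sub_apply, Matrix.scalar_apply, Matrix.neg_apply,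
        Matrix.add_apply, Matrix.of_apply, Matrix.one_apply, Matrix.diagonal_apply, smul_eq_mul]
      split_ifs
      · field_simp
        ring
      · field_simp
        ring
    have hdet : IsUnit (g P).det := isUnit_iff_ne_zero.mpr (hg P hP)
    have h2 : (g P)⁻¹ * (a' • (Matrix.scalar (Fin N) (algebraMap R K t) - M)) - 1 =
        (g P)⁻¹ * (Matrix.of h0 - g P + (a' * algebraMap R K t) • 1) := by
      rw [h1, Matrix.mul_add, Matrix.mul_add, Matrix.mul_sub, Matrix.nonsing_inv_mul _ hdet]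
      abel
    rw [h2, Matrix.mul_apply, Finset.sum_div]
    refine rp_sum _ _ fun l _ => ?_
    obtain ⟨r, hr⟩ := hdx (⟨P, hP⟩, i, l)
    have h3 : (Matrix.of h0 - g P + (a' * algebraMap R K t) • (1 : Matrix (Fin N) (Fin N) K)) l j =
        a' * ((h0 l j - g P l j) / a' + algebraMap R K t * (1 : Matrix (Fin N) (Fin N) K) l j) := by
      simp only [Matrix.add_apply, Matrix.sub_apply, Matrix.of_apply, Matrix.smul_apply,
        smul_eq_mul]
      field_simp
    have h4 : (g P)⁻¹ i l * (Matrix.of h0 - g P +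
        (a' * algebraMap R K t) • (1 : Matrix (Fin N) (Fin N) K)) l j / a =
        (algebraMap R K d * (g P)⁻¹ i l) *
          ((h0 l j - g P l j) / a' + algebraMap R K t * (1 : Matrix (Fin N) (Fin N) K) l j) := by
      rw [h3, ha']
      field_simp
    rw [h4]
    refine rp_mul ?_ (rp_add (hh0 l j P hP) (rp_mul (rp_alg t) ?_))
    · have h5 : algebraMap R K d * (g P)⁻¹ i l = algebraMap R K r := hr
      rw [h5]
      exact rp_alg r
    · rw [Matrix.one_apply]
      split_ifs
      · exact rp_one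
      · exact rp_zero

end Pool.T1
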