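import Pool.Agent.H29.T1.S8
import Pool.Agent.H70.HYP.NMU

/-!
# T1, module DIVK: halving of points when the 2-Selmer group is trivial
-/

set_option autoImplicit false

namespace Pool.T1

open Polynomial Matrix Pool.HYP Pool.TOW Pool.AVS IsDedekindDomain

namespace DIVK

variable {K : Type} [Field K]

/-- A quadratic polynomial which is zero. -/
theorem quad0 (A B D : K) (h : (C A * X ^ 2 + C B * X + C D : K[X]) = 0) :
    A = 0 ∧ B = 0 ∧ D = 0 := by
  refine ⟨?_, ?_, ?_⟩
  · have := congrArg (fun p : K[X] => p.coeff 2) h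
    simpa [coeff_X, coeff_C] using this
  · have := congrArg (fun p : K[X] => p.coeff 1) h
    simpa [coeff_X, coeff_C] using this
  · have := congrArg (fun p : K[X] => p.coeff 0) h
    simpa [coeff_X, coeff_C] using this

/-- The halving formula. -/
theorem half (a b c x s0 s1 s2 : K) (hs : s2 ≠ 0)
    (h : (X ^ 3 + C a * X ^ 2 + C b * X + C c : K[X]) ∣
      (C x - X) - (C s0 + C s1 * X + C s2 * X ^ 2) ^ 2) :
    ∃ x' y' : K, y' ^ 2 = x' ^ 3 + a * x' ^ 2 + b * x' + c ∧
      4 * y' ^ 2 * x = x' ^ 4 - 2 * b * x' ^ 2 - 8 * c * x' + b ^ 2 - 4 * a * c := by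
  set f : K[X] := X ^ 3 + C a * X ^ 2 + C b * X + C c with hf
  set s : K[X] := C s0 + C s1 * X + C s2 * X ^ 2 with hsd
  set x' : K := s1 / s2 - a with hx'
  set n1 : K := x' * s1 - s0 + s2 * b with hn1
  set n0 : K := x' * s0 + s2 * c with hn0
  have h0 : x' * s2 - s1 + s2 * a = 0 := by
    rw [hx']; field_simp; ring
  have h1 : (C x' - X) * s = (C n1 * X + C n0) - C s2 * f := by
    have h2 : (C x' - X) * s - ((C n1 * X + C n0) - C s2 * f) =
        C (x' * s2 - s1 + s2 * a) * X ^ 2 := by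
      rw [hsd, hf, hn1, hn0]
      simp only [C_add, C_sub, C_mul]
      ring
    rw [h0, C_0, zero_mul, sub_eq_zero] at h2
    exact h2
  have h3 : f ∣ (C x' - X) ^ 2 * (C x - X) - (C n1 * X + C n0) ^ 2 + f := by
    have h4 : (C x' - X) ^ 2 * (C x - X) - (C n1 * X + C n0) ^ 2 + f =
        (C x' - X) ^ 2 * ((C x - X) - s ^ 2) +
          f * (1 - C s2 * ((C x' - X) * s + (C n1 * X + C n0))) := by
      have h5 : ((C x' - X) * s) ^ 2 - (C n1 * X + C n0) ^ 2 =
          - (C s2 * f) * ((C x' - X) * s + (C n1 * X + C n0)) := by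
        have h6 : (C x' - X) * s - (C n1 * X + C n0) = - (C s2 * f) := by
          rw [h1]; ring
        rw [← h6]; ring
      linear_combination h5
    rw [h4]
    exact dvd_add (Dvd.dvd.mul_left h _) (Dvd.intro _ rfl)
  set A : K := x + 2 * x' - n1 ^ 2 + a with hA
  set B : K := b - (x' ^ 2 + 2 * x * x') - 2 * n1 * n0 with hB
  set D : K := x' ^ 2 * x - n0 ^ 2 + c with hD
  have h7 : (C x' - X) ^ 2 * (C x - X) - (C n1 * X + C n0) ^ 2 + f =
      C A * X ^ 2 + C B * X + C D := by
    rw [hA, hB, hD, hf]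
    simp only [C_add, C_sub, C_mul, C_pow, map_ofNat]
    ring
  rw [h7] at h3
  have hfd : f.natDegree = 3 := by
    rw [hf]
    have : (X ^ 3 + C a * X ^ 2 + C b * X + C c : K[X]) =
      C 1 * X ^ 3 + C a * X ^ 2 + C b * X + C c := by rw [C_1, one_mul]
    rw [this]
    exact natDegree_cubic one_ne_zero
  have h8 : C A * X ^ 2 + C B * X + C D = 0 := by
    refine eq_zero_of_dvd_of_natDegree_lt h3 ?_
    rw [hfd]
    exact lt_of_le_of_lt natDegree_quadratic_le (by norm_num)
  obtain ⟨hA0, hB0, hD0⟩ := quad0 A B D h8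
  have ha : a = n1 ^ 2 - x - 2 * x' := by linear_combination hA0
  have hb : b = x' ^ 2 + 2 * x * x' + 2 * n1 * n0 := by linear_combination hB0
  have hc : c = n0 ^ 2 - x' ^ 2 * x := by linear_combination hD0
  refine ⟨x', n1 * x' + n0, ?_, ?_⟩
  · clear_value A B D n1 n0 x'
    rw [ha, hb, hc]; ring
  · clear_value A B D n1 n0 x'
    rw [ha, hb, hc]; ring

end DIVK

open DIVK in
theorem divk : DIVKStmt := by
  intro K _ h2 a b c hirr hsel x y hy
  set f : K[X] := X ^ 3 + C a * X ^ 2 + C b * X + C c with hf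
  have hf1 : (X ^ 3 + C a * X ^ 2 + C b * X + C c : K[X]) =
      C 1 * X ^ 3 + C a * X ^ 2 + C b * X + C c := by rw [C_1, one_mul]
  have hfd : f.natDegree = 3 := by
    rw [hf, hf1]
    exact natDegree_cubic one_ne_zero
  have hfm : f.Monic := by
    rw [Monic, leadingCoeff, hfd, hf, hf1]
    simp [coeff_X, coeff_C]
  have hev : f.eval x = y ^ 2 := by
    rw [hf, hy]
    simp
  have hcop : IsCoprime (C x - X : K[X]) f := by
    have h1 : IsCoprime f (C x - X : K[X]) := by
      rw [hirr.coprime_iff_not_dvd]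
      intro h
      have h3 : (C x - X : K[X]) = 0 := by
        refine eq_zero_of_dvd_of_natDegree_lt h ?_
        rw [hfd]
        have h4 : (C x - X : K[X]) = C (-1) * X + C x := by
          rw [C_neg, C_1]; ring
        rw [h4]
        exact lt_of_le_of_lt natDegree_linear_le (by norm_num)
      have h4 := congrArg (fun p : K[X] => p.coeff 1) h3
      simp [coeff_X, coeff_C] at h4
    exact h1.symm
  obtain ⟨s, hs⟩ := hsel (C x - X) hcop (by
    rw [Pool.HYP.NMU.norm_sub f hfm x, hev]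
    exact ⟨y, by ring⟩) (by
    intro L _ O ι _
    refine ⟨X - C (ι x), C (ι y), 1, monic_X_sub_C _, ?_, ?_, ?_⟩
    · have h3 := hcop.map (mapRingHom ι)
      simp only [coe_mapRingHom] at h3
      have h4 : (X - C (ι x) : L[X]) = -((C x - X : K[X]).map ι) := by
        simp
      rw [h4]
      exact h3.neg_left
    · rw [dvd_iff_isRoot, IsRoot.def, eval_sub, eval_pow, eval_C, eval_map, eval₂_at_apply, hev,
        map_pow, sub_self]
    · have h3 : (-1 : L[X]) ^ (X - C (ι x) : L[X]).natDegree * (X - C (ι x)) -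
          (C x - X : K[X]).map ι * 1 ^ 2 = 0 := by
        rw [natDegree_X_sub_C]
        simp
      rw [h3]
      exact dvd_zero _)
  -- reduce `s` modulo `f`
  set r : K[X] := s %ₘ f with hr
  have hrd : r.natDegree < 3 := by
    have h3 := natDegree_modByMonic_lt s hfm (by
      intro h
      rw [h, natDegree_one] at hfd
      omega)
    rw [hfd] at h3
    exact h3
  have hre : r = C (r.coeff 0) + C (r.coeff 1) * X + C (r.coeff 2) * X ^ 2 := by
    conv_lhs => rw [r.as_sum_range' 3 hrd]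
    simp [Finset.sum_range_succ, ← C_mul_X_pow_eq_monomial]
  have hsr : f ∣ (C x - X) - r ^ 2 := by
    have h3 : f ∣ s - r := by
      rw [hr]
      refine ⟨s /ₘ f, ?_⟩
      have := modByMonic_add_div s f
      linear_combination -this
    have h4 : (C x - X) - r ^ 2 = ((C x - X) - s ^ 2) + (s - r) * (s + r) := by ring
    rw [h4]
    exact dvd_add hs (Dvd.dvd.mul_right h3 _)
  rw [hre] at hsr
  by_cases h3 : r.coeff 2 = 0
  · exfalso
    rw [h3, C_0, zero_mul, add_zero] at hsr
    have h4 : (C x - X : K[X]) - (C (r.coeff 0) + C (r.coeff 1) * X) ^ 2 =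
        C (-(r.coeff 1) ^ 2) * X ^ 2 + C (-1 - 2 * r.coeff 0 * r.coeff 1) * X +
          C (x - (r.coeff 0) ^ 2) := by
      simp only [C_add, C_sub, C_mul, C_pow, map_ofNat, C_neg, C_1]
      ring
    rw [h4] at hsr
    have h5 : C (-(r.coeff 1) ^ 2) * X ^ 2 + C (-1 - 2 * r.coeff 0 * r.coeff 1) * X +
          C (x - (r.coeff 0) ^ 2) = 0 := by
      refine eq_zero_of_dvd_of_natDegree_lt hsr ?_
      rw [hfd]
      exact lt_of_le_of_lt natDegree_quadratic_le (by norm_num)
    obtain ⟨h6, h7, -⟩ := quad0 _ _ _ h5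
    have h8 : r.coeff 1 = 0 := by
      rw [neg_eq_zero] at h6
      exact pow_eq_zero_iff (two_ne_zero) |>.mp h6
    rw [h8, mul_zero, sub_zero] at h7
    exact neg_ne_zero.mpr one_ne_zero h7
  · exact half a b c x _ _ _ h3 hsr

end Pool.T1
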