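import Pool.Agent.H36.T1.ZSPA

/-!
# T1T, module ZSPL: infinitely many primes split completely
-/

set_option autoImplicit false

namespace Pool.T1

open Polynomial Pool.HYP Pool.TOW Pool.AVS IsDedekindDomain IsLocalRing

namespace ZSPL

theorem isUnit_iff_inv {L : Type} [Field L] (O : ValuationSubring L) (z : O) :
    IsUnit z ↔ ((z : L))⁻¹ ∈ O ∧ (z : L) ≠ 0 := by
  constructor
  · rintro ⟨u, rfl⟩
    have h1 : ((u : O) : L) * ((u⁻¹ : Oˣ) : O) = 1 :=
      congrArg (fun z : O => (z : L)) u.mul_inv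
    refine ⟨?_, left_ne_zero_of_mul_eq_one h1⟩
    rw [inv_eq_of_mul_eq_one_right h1]
    exact ((u⁻¹ : Oˣ) : O).2
  · rintro ⟨h1, h2⟩
    exact IsUnit.of_mul_eq_one ⟨_, h1⟩ (Subtype.ext (mul_inv_cancel₀ h2))

/-- Powers of a non-unit are small. -/
theorem arch {L : Type} [Field L] (O : ValuationSubring L) (hO : IsDiscreteValuationRing O)
    (p : O) (hp : p ∈ maximalIdeal O) (B : L) (hB : B ≠ 0) : ∃ m : ℕ, ((p ^ m : O) : L) / B ∈ O := by
  rcases O.mem_or_inv_mem B with h | h
  · obtain ⟨ϖ, hϖ⟩ := IsDiscreteValuationRing.exists_irreducible O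
    have hne : (⟨B, h⟩ : O) ≠ 0 := fun h0 => hB (congrArg (fun z : O => (z : L)) h0)
    obtain ⟨n, hn⟩ := IsDiscreteValuationRing.associated_pow_irreducible hne hϖ
    have h1 : ϖ ∣ p := by
      rw [hϖ.maximalIdeal_eq, Ideal.mem_span_singleton] at hp
      exact hp
    obtain ⟨w, hw⟩ := hn.dvd.trans (pow_dvd_pow_of_dvd h1 n)
    refine ⟨n, ?_⟩
    have h2 : ((p ^ n : O) : L) / B = (w : L) := by
      rw [hw]
      change (B * (w : L)) / B = w
      field_simp
    rw [h2]
    exact w.2
  · refine ⟨0, ?_⟩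
    rw [pow_zero]
    change (1 : L) / B ∈ O
    rw [one_div]
    exact h

section Spl

variable {R : Type} [CommRing R] [IsDedekindDomain R] {K : Type} [Field K] [Algebra R K]
  [IsFractionRing R K]

theorem spl_of {E : Type} [Field E] [Algebra K E]
    [FiniteDimensional K E] {h : R[X]} {δ : R} {u v : R[X]} (hm : h.Monic)
    (hδ : u * h + v * derivative h = C δ) (hi : Irreducible (fk K h))
    (hd : (fk K h).natDegree = Module.finrank K E) (hs : (fkE K E h).Splits)
    {P : HeightOneSpectrum R} (hPδ : δ ∉ P.asIdeal) {a : R}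
    (hPa : h.eval a ∈ P.asIdeal)
    (hV : (∀ a : R, algebraMap R K a ∈ vP K P) ∧
      (vP K P : Set K) = {x | ∃ m : R, m ∉ P.asIdeal ∧ ∃ a : R,
        algebraMap R K m * x = algebraMap R K a}) : SplV E (vP K P) := by
  intro L _ O ι hA z b hb
  obtain ⟨hC, hcomap⟩ := hA
  have hmem : ∀ x : K, ι (algebraMap K E x) ∈ O ↔ x ∈ vP K P := by
    intro x
    rw [← hcomap]
    rfl
  have hpoly : ∀ p : R, ι (algebraMap K E (algebraMap R K p)) ∈ O :=
    fun p => (hmem _).2 (hV.1 p)
  set φ : R →+* O :=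
    ((ι.comp (algebraMap K E)).comp (algebraMap R K)).codRestrict
      O.toSubring (fun p => hpoly p) with hφ
  have hφv : ∀ p : R, ((φ p : O) : L) = ι (algebraMap K E (algebraMap R K p)) := fun p => rfl
  have hinj : ∀ p : R, p ≠ 0 → ι (algebraMap K E (algebraMap R K p)) ≠ 0 := by
    intro p hp
    rw [_root_.map_ne_zero, _root_.map_ne_zero]
    exact alg_ne' hp
  have hπ : ∀ p ∈ P.asIdeal, φ p ∈ maximalIdeal O := by
    intro p hp
    by_cases hp0 : p = 0
    · rw [hp0, map_zero]
      exact Ideal.zero_mem _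
    rw [mem_maximalIdeal, mem_nonunits_iff, isUnit_iff_inv]
    rintro ⟨h1, -⟩
    rw [hφv, ← map_inv₀, ← map_inv₀, hmem] at h1
    have h2 : (algebraMap R K p)⁻¹ ∈ (vP K P : Set K) := h1
    rw [hV.2] at h2
    obtain ⟨m, hm', r, hr⟩ := h2
    apply hm'
    have h3 : m = r * p := by
      apply IsFractionRing.injective R K
      rw [map_mul, ← hr]
      have := alg_ne' (K := K) hp0
      field_simp
    rw [h3]
    exact Ideal.mul_mem_left _ _ hp
  have hcop : ∀ d : R, d ∉ P.asIdeal → IsUnit (φ d) := by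
    intro d hd
    rw [isUnit_iff_inv]
    have hd0 : d ≠ 0 := by
      rintro rfl
      exact hd (Ideal.zero_mem _)
    refine ⟨?_, hinj d hd0⟩
    rw [hφv, ← map_inv₀, ← map_inv₀, hmem]
    have h2 : (algebraMap R K d)⁻¹ ∈ (vP K P : Set K) := by
      rw [hV.2]
      refine ⟨d, hd, 1, ?_⟩
      rw [map_one]
      exact mul_inv_cancel₀ (alg_ne' hd0)
    exact h2
  have hev : ∀ (q : R[X]) (t : O) (θ : E), (t : L) = ι θ →
      (((q.map φ).eval t : O) : L) = ι ((fkE K E q).eval θ) := by
    intro q t θ ht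
    have e1 : (((q.map φ).eval t : O) : L) = Polynomial.eval₂ (O.subtype.comp φ) (t : L) q := by
      rw [Polynomial.eval_map]
      exact Polynomial.hom_eval₂ q φ O.subtype t
    have e2 : ι ((fkE K E q).eval θ) = Polynomial.eval₂ (ι.comp ((algebraMap K E).comp
        (algebraMap R K))) (ι θ) q := by
      rw [fkE, fk, Polynomial.map_map, Polynomial.eval_map]
      exact Polynomial.hom_eval₂ q _ ι θ
    rw [e1, e2, ht]
    rfl
  have heva : ∀ (q : R[X]) (α : R), (q.map φ).eval (φ α) = φ (q.eval α) := by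
    intro q α
    rw [Polynomial.eval_map, Polynomial.eval₂_at_apply]
  -- roots are integral
  have hint : ∀ θ : E, (fkE K E h).eval θ = 0 → ι θ ∈ O := by
    intro θ hθ
    have h1 : IsIntegral O (ι θ) := by
      refine ⟨h.map φ, hm.map φ, ?_⟩
      rw [Polynomial.eval₂_map]
      have e2 : ι ((fkE K E h).eval θ) = Polynomial.eval₂ (ι.comp ((algebraMap K E).comp
          (algebraMap R K))) (ι θ) h := by
        rw [fkE, fk, Polynomial.map_map, Polynomial.eval_map]
        exact Polynomial.hom_eval₂ h _ ι θ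
      rw [hθ, map_zero] at e2
      rw [e2]
      rfl
    obtain ⟨y, hy⟩ := (IsIntegrallyClosed.isIntegral_iff (R := O) (K := L)).1 h1
    rw [← hy]
    exact y.2
  -- a root close to `a`
  obtain ⟨θ, hθ, hnu⟩ : ∃ θ : E, (fkE K E h).eval θ = 0 ∧
      ¬ (ι (algebraMap K E (algebraMap R K a)) - ι θ ≠ 0 ∧
        ι (algebraMap K E (algebraMap R K a)) - ι θ ∈ O ∧
        (ι (algebraMap K E (algebraMap R K a)) - ι θ)⁻¹ ∈ O) := by
    by_contra hcon
    push Not at hcon
    have hm' : (fkE K E h).Monic := (hm.map _).map _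
    have h1 : (fkE K E h).eval (algebraMap K E (algebraMap R K a)) =
        ((fkE K E h).roots.map (fun x => algebraMap K E (algebraMap R K a) - x)).prod := by
      conv_lhs => rw [hs.eq_prod_roots_of_monic hm']
      rw [Polynomial.eval_multiset_prod, Multiset.map_map]
      congr 1
      apply Multiset.map_congr rfl
      intro x _
      simp
    have h2 : (fkE K E h).eval (algebraMap K E (algebraMap R K a)) =
        algebraMap K E (algebraMap R K (h.eval a)) := by
      rw [fkE, fk, Polynomial.map_map, Polynomial.eval_map]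
      exact Polynomial.eval₂_at_apply ((algebraMap K E).comp (algebraMap R K)) a
    have h3 : ι (algebraMap K E (algebraMap R K (h.eval a))) ≠ 0 ∧
        (ι (algebraMap K E (algebraMap R K (h.eval a))))⁻¹ ∈ O := by
      rw [← h2, h1, map_multiset_prod, Multiset.map_map]
      refine Multiset.prod_induction (fun x : L => x ≠ 0 ∧ x⁻¹ ∈ O) _ ?_ ?_ ?_
      · intro x y hx hy
        refine ⟨mul_ne_zero hx.1 hy.1, ?_⟩
        rw [mul_inv]
        exact mul_mem hx.2 hy.2
      · exact ⟨one_ne_zero, by rw [inv_one]; exact O.one_mem⟩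
      · intro x hx
        obtain ⟨r, hr, rfl⟩ := Multiset.mem_map.1 hx
        have hr' : (fkE K E h).eval r = 0 := (Polynomial.mem_roots'.1 hr).2
        have h4 := hcon r hr'
        simp only [Function.comp_apply, map_sub]
        exact ⟨h4.1, h4.2.2⟩
    have h4 := hπ _ hPa
    rw [mem_maximalIdeal, mem_nonunits_iff, isUnit_iff_inv] at h4
    exact h4 ⟨h3.2, h3.1⟩
  set t : O := ⟨ι θ, hint θ hθ⟩ with ht
  have ht0 : (h.map φ).eval t = 0 := by
    apply Subtype.ext
    rw [hev h t θ rfl, hθ, map_zero]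
    rfl
  have hy : φ a - t ∈ maximalIdeal O := by
    rw [mem_maximalIdeal, mem_nonunits_iff, isUnit_iff_inv]
    intro h1
    exact hnu ⟨h1.2, (φ a - t).2, h1.1⟩
  -- the derivative
  have hdu : IsUnit (((derivative h).map φ).eval t) := by
    have h1 := congrArg (fun q : R[X] => (q.map φ).eval t) hδ
    simp only [Polynomial.map_add, Polynomial.map_mul, Polynomial.eval_add, Polynomial.eval_mul,
      Polynomial.map_C, Polynomial.eval_C] at h1
    rw [ht0, mul_zero, zero_add] at h1
    exact isUnit_of_mul_isUnit_right (h1 ▸ hcop δ hPδ)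
  have hda : (derivative h).eval a ∉ P.asIdeal := by
    intro h0
    apply hPδ
    have h1 := congrArg (fun q : R[X] => q.eval a) hδ
    simp only [Polynomial.eval_add, Polynomial.eval_mul, Polynomial.eval_C] at h1
    rw [← h1]
    exact Ideal.add_mem _ (Ideal.mul_mem_left _ _ hPa) (Ideal.mul_mem_left _ _ h0)
  obtain ⟨s, i, hi', hrs⟩ := P.isMaximal.exists_inv hda
  have hnew := newton P.asIdeal h a s hPa (by
    have h1 : 1 - s * (derivative h).eval a = i := by linear_combination -hrs
    rw [h1]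
    exact hi')
  -- the uniformizer of the completion
  have hdvr := hC.dvr
  obtain ⟨ϖ, hϖ⟩ := IsDiscreteValuationRing.exists_irreducible O
  have hM : ∀ n : ℕ, maximalIdeal O ^ n = Ideal.span {ϖ ^ n} := by
    intro n
    rw [hϖ.maximalIdeal_eq, Ideal.span_singleton_pow]
  have hϖM : ϖ ∈ maximalIdeal O := by
    rw [hϖ.maximalIdeal_eq]
    exact Ideal.mem_span_singleton_self _
  -- approximation of the root
  have happ : ∀ m : ℕ, ∃ α : R, ϖ ^ (m + 1) ∣ φ α - t := by
    intro m
    obtain ⟨α, hα1, hα2⟩ := hnew m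
    refine ⟨α, ?_⟩
    obtain ⟨k, hk⟩ := Polynomial.binomExpansion (h.map φ) t (φ α - t)
    rw [add_sub_cancel, ht0, zero_add, heva, Polynomial.derivative_map] at hk
    have hdm : φ α - t ∈ maximalIdeal O := by
      have h1 : φ α - t = φ (α - a) + (φ a - t) := by
        rw [map_sub]
        ring
      rw [h1]
      exact Ideal.add_mem _ (hπ _ hα1) hy
    have h2 : φ (h.eval α) =
        (φ α - t) * (((derivative h).map φ).eval t + k * (φ α - t)) := by
      rw [hk]
      ring
    have h3 : IsUnit (((derivative h).map φ).eval t + k * (φ α - t)) := by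
      by_contra h4
      have h5 : ((derivative h).map φ).eval t ∈ maximalIdeal O := by
        have h6 : ((derivative h).map φ).eval t =
            (((derivative h).map φ).eval t + k * (φ α - t)) - k * (φ α - t) := by ring
        rw [h6]
        exact Ideal.sub_mem _ ((mem_maximalIdeal _).2 h4) (Ideal.mul_mem_left _ _ hdm)
      exact (mem_maximalIdeal _).1 h5 hdu
    have h7 : ϖ ^ (m + 1) ∣ φ (h.eval α) := by
      rw [← Ideal.mem_span_singleton, ← hM]
      have h8 : Ideal.map φ P.asIdeal ≤ maximalIdeal O := Ideal.map_le_iff_le_comap.2 hπ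
      have h9 : φ (h.eval α) ∈ Ideal.map φ (P.asIdeal ^ (m + 1)) := Ideal.mem_map_of_mem φ hα2
      rw [Ideal.map_pow] at h9
      exact Ideal.pow_right_mono h8 _ h9
    rw [h2] at h7
    exact (IsUnit.dvd_mul_right h3).1 h7
  -- the density
  obtain ⟨e, he⟩ := hC.dense z b hb
  obtain ⟨g, hg⟩ := range_root hm hi hd hθ e
  obtain ⟨c, hc0, q, hq⟩ := clr (R := R) g
  obtain ⟨m, hmB⟩ := arch O hC.dvr ϖ hϖM (ι (algebraMap K E (algebraMap R K c)) * b)
    (mul_ne_zero (hinj c hc0) hb)
  obtain ⟨α, hα⟩ := happ m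
  refine ⟨g.eval (algebraMap R K α), ?_⟩
  have h1 : (z - ι (algebraMap K E (g.eval (algebraMap R K α)))) / b =
      (z - ι e) / b + (ι e - ι (algebraMap K E (g.eval (algebraMap R K α)))) / b := by
    rw [← add_div]
    congr 1
    ring
  rw [h1]
  refine add_mem he ?_
  have hqθ : (fkE K E q).eval θ = algebraMap K E (algebraMap R K c) * e := by
    rw [fkE, hq, Polynomial.map_mul, Polynomial.map_C, Polynomial.eval_mul, Polynomial.eval_C, hg]
  have hqα : algebraMap K E (algebraMap R K (q.eval α)) =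
      algebraMap K E (algebraMap R K c) * algebraMap K E (g.eval (algebraMap R K α)) := by
    have h2 : algebraMap R K (q.eval α) = algebraMap R K c * g.eval (algebraMap R K α) := by
      have h3 : algebraMap R K (q.eval α) = (fk K q).eval (algebraMap R K α) := by
        rw [fk, Polynomial.eval_map]
        exact (Polynomial.eval₂_at_apply (algebraMap R K) α).symm
      rw [h3, hq, Polynomial.eval_mul, Polynomial.eval_C]
    rw [← map_mul]
    exact congrArg _ h2
  obtain ⟨w, hw⟩ := Polynomial.sub_dvd_eval_sub (φ α) t (q.map φ)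
  obtain ⟨w', hw'⟩ := hα
  have h4 : ι (algebraMap K E (algebraMap R K c)) *
      (ι e - ι (algebraMap K E (g.eval (algebraMap R K α)))) =
      -(((ϖ ^ m : O) : L) * ((ϖ * w' * w : O) : L)) := by
    have h5 : (((q.map φ).eval (φ α) - (q.map φ).eval t : O) : L) =
        (((φ α - t) * w : O) : L) := congrArg _ hw
    have h6 : (((q.map φ).eval (φ α) - (q.map φ).eval t : O) : L) =
        (((q.map φ).eval (φ α) : O) : L) - (((q.map φ).eval t : O) : L) := rfl
    rw [h6, hev q t θ rfl, hqθ, heva, hφv, hqα, hw'] at h5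
    rw [map_mul, map_mul] at h5
    have h7 : (((ϖ ^ (m + 1) * w') * w : O) : L) =
        ((ϖ ^ m : O) : L) * ((ϖ * w' * w : O) : L) := by
      change _ = (((ϖ ^ m) * (ϖ * w' * w) : O) : L)
      congr 1
      ring
    rw [h7] at h5
    linear_combination -h5
  have h8 : (ι e - ι (algebraMap K E (g.eval (algebraMap R K α)))) / b =
      -((((ϖ ^ m : O) : L) / (ι (algebraMap K E (algebraMap R K c)) * b)) *
        ((ϖ * w' * w : O) : L)) := by
    have hc1 := hinj c hc0
    field_simp
    linear_combination h4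
  rw [h8]
  exact neg_mem (mul_mem hmB (ϖ * w' * w).2)

end Spl

end ZSPL

open ZSPL in
theorem zspl : ZVALStmt → ZSPLStmt := by
  intro hZ R _ _ K _ _ _ O π hG E _ _ hfd hgal A
  classical
  obtain ⟨h, δ, u, v, hm, hd, h0, hδ0, huv, hi, hdeg, hs⟩ := prim (R := R) (K := K) E
  have hex : ∀ P : HeightOneSpectrum R, ∃ x ∈ P.asIdeal, x ≠ 0 :=
    fun P => Submodule.exists_mem_ne_zero_of_ne_bot P.ne_bot
  choose q hq hq0 using hex
  obtain ⟨P, a, hPQ, hPa⟩ := new_prime hG hd h0 (δ * ∏ P ∈ A, q P)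
    (mul_ne_zero hδ0 (Finset.prod_ne_zero_iff.2 fun P _ => hq0 P))
  refine ⟨P, ?_, ?_⟩
  · intro hPA
    apply hPQ
    apply Ideal.mul_mem_left
    rw [← Finset.mul_prod_erase A q hPA]
    exact Ideal.mul_mem_right _ _ (hq P)
  · have hPδ : δ ∉ P.asIdeal := fun hP => hPQ (Ideal.mul_mem_right _ _ hP)
    exact spl_of hm huv hi hdeg hs hPδ hPa ((hZ R K).2.1 P).2

end Pool.T1
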