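import Pool.Agent.H29.T1.ZS
import Pool.Agent.H36.T1.GRA

/-!
# T1T, module ZSPL, part A: a primitive element, Newton approximation, a new prime
-/

set_option autoImplicit false

namespace Pool.T1

open Polynomial Pool.HYP Pool.TOW Pool.AVS IsDedekindDomain

namespace ZSPL

section Prim

variable {R : Type} [CommRing R] [IsDedekindDomain R] {K : Type} [Field K] [Algebra R K]
  [IsFractionRing R K]

theorem alg_ne' {a : R} (ha : a ≠ 0) : algebraMap R K a ≠ 0 := fun h =>
  ha (IsFractionRing.injective R K (h.trans (map_zero _).symm))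

/-- Clearing denominators. -/
theorem clr (g : K[X]) : ∃ c : R, c ≠ 0 ∧ ∃ q : R[X], fk K q = C (algebraMap R K c) * g := by
  obtain ⟨b, hb1, hb2⟩ := IsLocalization.integerNormalization_spec (nonZeroDivisors R) g
  refine ⟨b, nonZeroDivisors.ne_zero hb1,
    IsLocalization.integerNormalization (nonZeroDivisors R) g, ?_⟩
  rw [fk, hb2, ← IsScalarTower.algebraMap_smul K b g, Polynomial.smul_eq_C_mul]

theorem fk_inj : Function.Injective (fk (R := R) K) :=
  Polynomial.map_injective _ (IsFractionRing.injective R K)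

open IntermediateField in
theorem prim (E : Type) [Field E] [Algebra K E] [FiniteDimensional K E] [IsGalois K E] :
    ∃ (h : R[X]) (δ : R) (u v : R[X]), h.Monic ∧ 0 < h.natDegree ∧ h.coeff 0 ≠ 0 ∧
      δ ≠ 0 ∧ u * h + v * derivative h = C δ ∧ Irreducible (fk K h) ∧
      (fk K h).natDegree = Module.finrank K E ∧ (fkE K E h).Splits := by
  let _ : Algebra R E := ((algebraMap K E).comp (algebraMap R K)).toAlgebra
  have : IsScalarTower R K E := IsScalarTower.of_algebraMap_eq (fun _ => rfl)
  obtain ⟨θ₀, hθ₀⟩ := Field.exists_primitive_element K E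
  obtain ⟨θ₁, hθ₁, hne⟩ : ∃ θ : E, K⟮θ⟯ = ⊤ ∧ θ ≠ 0 := by
    by_cases h : θ₀ = 0
    · refine ⟨1, ?_, one_ne_zero⟩
      rw [h, IntermediateField.adjoin_zero] at hθ₀
      rw [IntermediateField.adjoin_one]
      exact hθ₀
    · exact ⟨θ₀, hθ₀, h⟩
  obtain ⟨c, hc⟩ := IsIntegral.exists_multiple_integral_of_isLocalization
    (nonZeroDivisors R) (Rₘ := K) θ₁ (IsIntegral.of_finite K θ₁)
  have hc0 : (c : R) ≠ 0 := nonZeroDivisors.ne_zero c.2
  have hcE : algebraMap R K (c : R) ≠ 0 := alg_ne' hc0
  set θ : E := c • θ₁ with hθdef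
  have hθe : θ = algebraMap K E (algebraMap R K (c : R)) * θ₁ := by
    rw [hθdef, Submonoid.smul_def, Algebra.smul_def]
    rfl
  have hcE' : algebraMap K E (algebraMap R K (c : R)) ≠ 0 := (_root_.map_ne_zero _).2 hcE
  have hθne : θ ≠ 0 := by
    rw [hθe]
    exact mul_ne_zero hcE' hne
  have hθtop : K⟮θ⟯ = ⊤ := by
    rw [eq_top_iff, ← hθ₁, IntermediateField.adjoin_simple_le_iff]
    have h1 : θ₁ = algebraMap K E (algebraMap R K (c : R))⁻¹ * θ := by
      rw [hθe, map_inv₀]
      field_simp
    rw [h1]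
    exact mul_mem (IntermediateField.algebraMap_mem _ _)
      (IntermediateField.mem_adjoin_simple_self _ _)
  have hmin : minpoly K θ = fk K (minpoly R θ) :=
    minpoly.isIntegrallyClosed_eq_field_fractions' K hc
  have hdeg : (fk K (minpoly R θ)).natDegree = Module.finrank K E := by
    rw [← hmin]
    exact (Field.primitive_element_iff_minpoly_natDegree_eq K θ).1 hθtop
  obtain ⟨a, b, hab⟩ : (minpoly K θ).Separable :=
    Algebra.IsSeparable.isSeparable K θ
  obtain ⟨c₁, hc₁, q₁, hq₁⟩ := clr (R := R) a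
  obtain ⟨c₂, hc₂, q₂, hq₂⟩ := clr (R := R) b
  refine ⟨minpoly R θ, c₁ * c₂, C c₂ * q₁, C c₁ * q₂, minpoly.monic hc,
    minpoly.natDegree_pos hc, ?_, mul_ne_zero hc₁ hc₂, ?_, ?_, hdeg, ?_⟩
  · intro h0
    have h1 := minpoly.coeff_zero_ne_zero (IsIntegral.of_finite K θ) hθne
    apply h1
    rw [hmin, fk, Polynomial.coeff_map, h0, map_zero]
  · apply fk_inj (K := K)
    rw [hmin] at hab
    have hd : derivative (fk K (minpoly R θ)) = fk K (derivative (minpoly R θ)) :=
      Polynomial.derivative_map _ _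
    rw [hd] at hab
    change Polynomial.map _ _ = Polynomial.map _ _
    rw [Polynomial.map_add, Polynomial.map_mul, Polynomial.map_mul, Polynomial.map_mul,
      Polynomial.map_mul, Polynomial.map_C, Polynomial.map_C, Polynomial.map_C]
    change C (algebraMap R K c₂) * fk K q₁ * fk K (minpoly R θ) +
      C (algebraMap R K c₁) * fk K q₂ * fk K (derivative (minpoly R θ)) =
        C (algebraMap R K (c₁ * c₂))
    have hr : (C (algebraMap R K (c₁ * c₂)) : K[X]) =
        C (algebraMap R K c₁) * C (algebraMap R K c₂) := by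
      rw [← C_mul, ← map_mul]
    rw [hq₁, hq₂, hr]
    linear_combination (C (algebraMap R K c₁) * C (algebraMap R K c₂)) * hab
  · rw [← hmin]
    exact minpoly.irreducible (IsIntegral.of_finite K θ)
  · rw [fkE, ← hmin]
    exact Normal.splits inferInstance θ

/-- Every element of `E` is a polynomial in a root of `h`. -/
theorem range_root {E : Type} [Field E] [Algebra K E] [FiniteDimensional K E] {h : R[X]}
    (hm : h.Monic) (hi : Irreducible (fk K h))
    (hd : (fk K h).natDegree = Module.finrank K E) {θ : E}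
    (hθ : (fkE K E h).eval θ = 0) (e : E) :
    ∃ g : K[X], e = (g.map (algebraMap K E)).eval θ := by
  have hmin : fk K h = minpoly K θ := by
    apply minpoly.eq_of_irreducible_of_monic hi
    · rw [Polynomial.aeval_def, ← Polynomial.eval_map]
      exact hθ
    · exact hm.map _
  have htop : IntermediateField.adjoin K {θ} = ⊤ := by
    rw [Field.primitive_element_iff_minpoly_natDegree_eq, ← hmin, hd]
  have h1 : e ∈ IntermediateField.adjoin K {θ} := by
    rw [htop]
    exact IntermediateField.mem_top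
  have h2 : e ∈ (IntermediateField.adjoin K {θ}).toSubalgebra := h1
  rw [IntermediateField.adjoin_simple_toSubalgebra_of_isAlgebraic
    (Algebra.IsAlgebraic.isAlgebraic θ), Algebra.adjoin_singleton_eq_range_aeval] at h2
  obtain ⟨g, hg⟩ := h2
  refine ⟨g, ?_⟩
  rw [← hg]
  change Polynomial.aeval θ g = _
  rw [Polynomial.aeval_def, ← Polynomial.eval_map]

end Prim

/-- Newton approximation. -/
theorem newton {A : Type} [CommRing A] (I : Ideal A) (h : A[X]) (a s : A)
    (h1 : h.eval a ∈ I) (h2 : 1 - s * (derivative h).eval a ∈ I) :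
    ∀ m : ℕ, ∃ α : A, α - a ∈ I ∧ h.eval α ∈ I ^ (m + 1) := by
  intro m
  induction m with
  | zero => exact ⟨a, by simp, by simpa using h1⟩
  | succ m ih =>
    obtain ⟨α, hα1, hα2⟩ := ih
    obtain ⟨k, hk⟩ := Polynomial.binomExpansion h α (-(s * h.eval α))
    have hPα : h.eval α ∈ I := Ideal.pow_le_self (Nat.succ_ne_zero m) hα2
    have h3 : 1 - s * (derivative h).eval α ∈ I := by
      have h4 : (derivative h).eval α - (derivative h).eval a ∈ I := by
        obtain ⟨w, hw⟩ := Polynomial.sub_dvd_eval_sub α a (derivative h)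
        rw [hw]
        exact Ideal.mul_mem_right _ _ hα1
      have h5 : 1 - s * (derivative h).eval α = (1 - s * (derivative h).eval a) -
          s * ((derivative h).eval α - (derivative h).eval a) := by ring
      rw [h5]
      exact Ideal.sub_mem _ h2 (Ideal.mul_mem_left _ _ h4)
    refine ⟨α + -(s * h.eval α), ?_, ?_⟩
    · have : α + -(s * h.eval α) - a = (α - a) - s * h.eval α := by ring
      rw [this]
      exact Ideal.sub_mem _ hα1 (Ideal.mul_mem_left _ _ hPα)
    · rw [hk]
      have h6 : h.eval α + (derivative h).eval α * -(s * h.eval α) +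
          k * (-(s * h.eval α)) ^ 2 = h.eval α * (1 - s * (derivative h).eval α) +
          h.eval α * (h.eval α * (k * s ^ 2)) := by ring
      rw [h6, pow_succ]
      exact Ideal.add_mem _ (Ideal.mul_mem_mul hα2 h3)
        (Ideal.mul_mem_mul hα2 (Ideal.mul_mem_right _ _ hPα))

section New

variable {R : Type} [CommRing R] [IsDedekindDomain R] {K : Type} [Field K] [Algebra R K]
  [IsFractionRing R K] {O : ValuationSubring K} {π : K}

/-- The units of `R` are in `L(0)`. -/
theorem unit_mem (h : GR R O π) {a : R} (ha : IsUnit a) : a ∈ Lm R O π 0 := by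
  obtain ⟨b, hb⟩ := ha.exists_right_inv
  have ha0 : algebraMap R K a ≠ 0 := alg_ne' ha.ne_zero
  have hb0 : b ≠ 0 := right_ne_zero_of_mul_eq_one hb
  obtain ⟨n, h1, h2⟩ := h.val _ ha0
  have hp := h.pi_ne
  have hpn : π ^ n ≠ 0 := zpow_ne_zero _ hp
  have hab : algebraMap R K a * algebraMap R K b = 1 := by rw [← map_mul, hb, map_one]
  have hn : 0 ≤ n := by
    by_contra hn
    push Not at hn
    apply hb0
    apply h.small
    change algebraMap R K b * π ^ (-1 : ℤ) ∈ O
    have h3 : algebraMap R K b * π ^ (-1 : ℤ) = (algebraMap R K a / π ^ n)⁻¹ * π ^ (-1 - n) := by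
      rw [inv_div, zpow_sub₀ hp]
      field_simp
      linear_combination hab
    rw [h3]
    exact O.mul_mem _ _ h2 (GRA.zpow_mem h (by omega))
  change algebraMap R K a * π ^ (0 : ℤ) ∈ O
  have h3 : algebraMap R K a * π ^ (0 : ℤ) = (algebraMap R K a / π ^ n) * π ^ n := by
    rw [zpow_zero]
    field_simp
  rw [h3]
  exact O.mul_mem _ _ h1 (GRA.zpow_mem h hn)

theorem inf (h : GR R O π) : Infinite R := by
  by_contra hR
  rw [not_infinite_iff_finite] at hR
  obtain ⟨c, hc⟩ := h.big
  have h3 := GRA.three_le h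
  have h4 : ∀ m : ℕ, qq O ^ m ≤ c * Nat.card R := fun m =>
    (hc m).trans (Nat.mul_le_mul_left _ (by
      rw [← Set.ncard_univ]
      exact Set.ncard_le_ncard (Set.subset_univ _) Set.finite_univ))
  have h5 := h4 (c * Nat.card R)
  have h6 : c * Nat.card R < qq O ^ (c * Nat.card R) := Nat.lt_pow_self (by omega)
  omega

/-- A new prime, outside any finite set. -/
theorem new_prime (hG : GR R O π) {h : R[X]} (hd : 0 < h.natDegree) (h0 : h.coeff 0 ≠ 0)
    (Q : R) (hQ : Q ≠ 0) :
    ∃ (P : HeightOneSpectrum R) (a : R), Q ∉ P.asIdeal ∧ h.eval a ∈ P.asIdeal := by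
  classical
  have hinf := inf hG
  set c0 : R := h.coeff 0 with hc0
  set m : R := c0 * Q with hmdef
  have hm0 : m ≠ 0 := mul_ne_zero h0 hQ
  have hfin : (Lm R O π (0 : ℤ)).Finite := (GRA.fin_nat hG 0).1
  -- the polynomials to avoid
  set Z : R → R[X] := fun c => h.comp (C m * X) - C (c0 * c) with hZ
  have hcomp : (h.comp (C m * X)).natDegree = h.natDegree := by
    rw [Polynomial.natDegree_comp, Polynomial.natDegree_C_mul_X _ hm0, mul_one]
  have hZ0 : ∀ c, Z c ≠ 0 := by
    intro c hc
    rw [hZ] at hc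
    have h1 : h.comp (C m * X) = C (c0 * c) := sub_eq_zero.1 hc
    rw [h1, Polynomial.natDegree_C] at hcomp
    omega
  have hprod : (∏ c ∈ hfin.toFinset, Z c) ≠ 0 := Finset.prod_ne_zero_iff.2 fun c _ => hZ0 c
  obtain ⟨b, hb⟩ := Polynomial.exists_eval_ne_zero_of_natDegree_lt_card _ hprod
    ((Cardinal.natCast_lt_aleph0).trans_le (Cardinal.aleph0_le_mk R))
  rw [Polynomial.eval_prod, Finset.prod_ne_zero_iff] at hb
  have h1 : h.eval (m * b) = c0 * (1 + Q * (b * h.divX.eval (m * b))) := by
    conv_lhs => rw [← Polynomial.divX_mul_X_add h]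
    rw [Polynomial.eval_add, Polynomial.eval_mul, Polynomial.eval_X, Polynomial.eval_C, ← hc0,
      hmdef]
    ring
  set w : R := 1 + Q * (b * h.divX.eval (m * b)) with hw
  have h2 : w ∉ Lm R O π (0 : ℤ) := by
    intro hc
    apply hb w (hfin.mem_toFinset.2 hc)
    rw [hZ]
    simp only [Polynomial.eval_sub, Polynomial.eval_comp, Polynomial.eval_mul, Polynomial.eval_C,
      Polynomial.eval_X]
    rw [h1, sub_self]
  have h3 : ¬ IsUnit w := fun hu => h2 (unit_mem hG hu)
  have h4 : w ≠ 0 := by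
    intro hw0
    apply h2
    rw [hw0]
    exact GRA.zero_mem 0
  obtain ⟨M, hM, hMw⟩ := exists_max_ideal_of_mem_nonunits (mem_nonunits_iff.2 h3)
  have hMb : M ≠ ⊥ := by
    rintro rfl
    exact h4 (by simpa using hMw)
  refine ⟨⟨M, hM.isPrime, hMb⟩, m * b, ?_, ?_⟩
  · intro hQM
    apply hM.ne_top
    rw [Ideal.eq_top_iff_one]
    have h5 : (1 : R) = w - Q * (b * h.divX.eval (m * b)) := by
      rw [hw]
      ring
    rw [h5]
    exact Ideal.sub_mem _ hMw (Ideal.mul_mem_right _ _ hQM)
  · rw [h1]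
    exact Ideal.mul_mem_left _ _ hMw

end New

end ZSPL

end Pool.T1
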